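import Pool.Agent.H17.SQA.Stmts

/-!
# SQA: row UPP, the upper bound
-/

set_option autoImplicit false

namespace Pool.SQA

open Finset MvPolynomial Pool.FOS Pool.CST

theorem upp_cc_nonneg (d : ℕ) : 0 ≤ cc d := by
  unfold cc
  have h0 : (0 : ℝ) ≤ 2 / (((2 * d).choose d : ℕ) : ℝ) := by positivity
  have h1 : √(1 - 2 / (((2 * d).choose d : ℕ) : ℝ)) ≤ 1 := by
    rw [Real.sqrt_le_one]
    linarith
  linarith

/-- choice of `m` -/
theorem upp_m (d : ℕ) (δ : ℝ) (hδ : 0 < δ) :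
    ∃ m : ℕ, 1 ≤ m ∧ (1 - δ) / (d.factorial : ℝ) < (m.choose d : ℝ) / (m : ℝ) ^ d := by
  obtain ⟨m, hm⟩ := exists_nat_gt ((d : ℝ) * (d : ℝ) / δ + d)
  have hd0 : (0 : ℝ) ≤ d := Nat.cast_nonneg d
  have hq0 : 0 ≤ (d : ℝ) * (d : ℝ) / δ := by positivity
  have hdm : (d : ℝ) < m := by linarith
  have hm0 : (0 : ℝ) < m := by linarith
  have hdm' : d < m := by exact_mod_cast hdm
  refine ⟨m, by omega, ?_⟩
  have h1 : (((m + 1 - d : ℕ) ^ d : ℕ) : ℝ) ≤ (d.factorial : ℝ) * (m.choose d : ℝ) := by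
    have h := Nat.pow_le_choose (α := ℝ) d m
    have hf : (0 : ℝ) < d.factorial := by exact_mod_cast d.factorial_pos
    push_cast at h ⊢
    rw [div_le_iff₀ hf, mul_comm] at h
    exact h
  have h2 : (((m + 1 - d : ℕ) ^ d : ℕ) : ℝ) = (m : ℝ) ^ d * (1 + (-((d : ℝ) - 1) / m)) ^ d := by
    rw [Nat.cast_pow, Nat.cast_sub (by omega), ← mul_pow]
    refine congrArg (fun x : ℝ => x ^ d) ?_
    push_cast
    field_simp
    ring
  have h3 : 1 + (d : ℝ) * (-((d : ℝ) - 1) / m) ≤ (1 + (-((d : ℝ) - 1) / m)) ^ d := by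
    refine one_add_mul_le_pow ?_ d
    rw [le_div_iff₀ hm0]
    linarith
  have h4 : 1 - δ < 1 + (d : ℝ) * (-((d : ℝ) - 1) / m) := by
    have h5 : (d : ℝ) * (d : ℝ) / δ < m := by linarith
    rw [div_lt_iff₀ hδ] at h5
    have h6 : (d : ℝ) * (-((d : ℝ) - 1) / m) = -(((d : ℝ) * ((d : ℝ) - 1)) / m) := by
      ring
    rw [h6]
    have h7 : ((d : ℝ) * ((d : ℝ) - 1)) / m < δ := by
      rw [div_lt_iff₀ hm0]
      nlinarith
    linarith
  have hf : (0 : ℝ) < d.factorial := by exact_mod_cast d.factorial_pos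
  have hmd : 0 < (m : ℝ) ^ d := pow_pos hm0 d
  rw [div_lt_div_iff₀ hf hmd]
  have h8 : (1 - δ) * (m : ℝ) ^ d < (m : ℝ) ^ d * (1 + (-((d : ℝ) - 1) / m)) ^ d := by
    rw [mul_comm]
    exact mul_lt_mul_of_pos_left (h4.trans_le h3) hmd
  rw [← h2] at h8
  calc (1 - δ) * (m : ℝ) ^ d < _ := h8
    _ ≤ _ := h1
    _ = (m.choose d : ℝ) * (d.factorial : ℝ) := mul_comm _ _

/-- the division -/
theorem upp_div (n m q : ℕ) (hm : 1 ≤ m) (hq : 1 ≤ q) :
    (n : ℝ) / m - q ≤ (q : ℝ) * ((n / (m * q) : ℕ) : ℝ) := by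
  have hm0 : (0 : ℝ) < m := by exact_mod_cast hm
  have h1 : n < m * q * (n / (m * q) + 1) := Nat.lt_mul_div_succ n (Nat.mul_pos hm hq)
  have h2 : (n : ℝ) < m * q * (((n / (m * q) : ℕ) : ℝ) + 1) := by exact_mod_cast h1
  have h3 : (n : ℝ) / m < q * (((n / (m * q) : ℕ) : ℝ) + 1) := by
    rw [div_lt_iff₀ hm0]
    linarith
  linarith

theorem t_upp (hK : KEYStmt) (hA : ASAStmt) (hM : MONStmt) : UPPStmt := by
  intro d ε hd hε
  obtain ⟨m, hm1, hm⟩ := upp_m d (ε / 2) (by linarith)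
  obtain ⟨K, hKf, s, g, hq1, hs, hg, hI⟩ := hK d m (ε / 4) hd (by linarith)
  have hmq : 0 < m * Fintype.card K := Nat.mul_pos hm1 hq1
  have hm0 : (0 : ℝ) < m := by exact_mod_cast hm1
  have hlim1 : Filter.Tendsto (fun n : ℕ => (m.choose d : ℝ) *
      (1 / (m : ℝ) - (Fintype.card K : ℝ) / (n : ℝ)) ^ d) Filter.atTop
      (nhds ((m.choose d : ℝ) * (1 / (m : ℝ) - 0) ^ d)) :=
    (((tendsto_const_div_atTop_nhds_zero_nat (Fintype.card K : ℝ)).const_sub
      (1 / (m : ℝ))).pow d).const_mul _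
  have hlim2 : Filter.Tendsto (fun n : ℕ => (1 - ε / 2) * ((mon n d : ℝ) / (n : ℝ) ^ d))
      Filter.atTop (nhds ((1 - ε / 2) * (1 / (d.factorial : ℝ)))) := (hM d).const_mul _
  have hlt : (1 - ε / 2) * (1 / (d.factorial : ℝ)) < (m.choose d : ℝ) * (1 / (m : ℝ) - 0) ^ d := by
    rw [mul_one_div, sub_zero, one_div, inv_pow, ← div_eq_mul_inv]
    exact hm
  obtain ⟨n0, hn0⟩ := Filter.eventually_atTop.mp (hlim2.eventually_lt hlim1 hlt)
  refine ⟨max n0 (m * Fintype.card K), fun n hn => ?_⟩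
  have hn1 : n0 ≤ n := (le_max_left _ _).trans hn
  have hn2 : m * Fintype.card K ≤ n := (le_max_right _ _).trans hn
  have hnpos : 1 ≤ n := by omega
  have hnR : (0 : ℝ) < n := by exact_mod_cast hnpos
  set r : ℕ := n / (m * Fintype.card K) with hr
  have hmr : m * (Fintype.card K * r) ≤ n := by
    rw [← mul_assoc, hr]
    exact Nat.mul_div_le n _
  obtain ⟨t, ht, hOn⟩ := hA d m r n K s g hd hq1 hnpos hmr hg hI
  refine ⟨_, ?_, hOn⟩
  set E : ℝ := (m.choose d : ℝ) * ((Fintype.card K : ℝ) * r) ^ d with hE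
  have htR : (t : ℝ) + E = mon n d := by
    rw [hE, ← ht]
    push_cast
    ring
  have hE0 : 0 ≤ E := by positivity
  have ht0 : (0 : ℝ) ≤ t := Nat.cast_nonneg t
  -- the lower bound for E
  have hE1 : (1 - ε / 2) * (mon n d : ℝ) ≤ E := by
    have h1 := hn0 n hn1
    have h2 : (1 - ε / 2) * ((mon n d : ℝ) / (n : ℝ) ^ d) * (n : ℝ) ^ d =
        (1 - ε / 2) * (mon n d : ℝ) := by
      have hnd : (n : ℝ) ^ d ≠ 0 := (pow_pos hnR d).ne'
      field_simp
    have h3 : (m.choose d : ℝ) * (1 / (m : ℝ) - (Fintype.card K : ℝ) / (n : ℝ)) ^ d *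
        (n : ℝ) ^ d = (m.choose d : ℝ) * ((n : ℝ) / m - (Fintype.card K : ℝ)) ^ d := by
      rw [mul_assoc, ← mul_pow]
      refine congrArg (fun x : ℝ => (m.choose d : ℝ) * x ^ d) ?_
      field_simp
    have h4 := mul_le_mul_of_nonneg_right h1.le (pow_pos hnR d).le
    rw [h2, h3] at h4
    refine h4.trans ?_
    rw [hE]
    refine mul_le_mul_of_nonneg_left ?_ (Nat.cast_nonneg _)
    refine pow_le_pow_left₀ ?_ (upp_div n m (Fintype.card K) hm1 hq1) d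
    rw [sub_nonneg, le_div_iff₀ hm0]
    have h5 : ((m * Fintype.card K : ℕ) : ℝ) ≤ n := by exact_mod_cast hn2
    push_cast at h5
    linarith
  -- the bound for the sum
  have hS : ((∑ B ∈ (univ : Finset (Fin m)).powersetCard d, s B * r ^ d : ℕ) : ℝ) ≤
      (cc d + ε / 4) * E := by
    rw [Nat.cast_sum]
    have h1 : ∀ B ∈ (univ : Finset (Fin m)).powersetCard d, ((s B * r ^ d : ℕ) : ℝ) ≤
        (cc d + ε / 4) * ((Fintype.card K : ℝ) * r) ^ d := by
      intro B hB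
      have h2 := hs B (Finset.mem_powersetCard.mp hB).2
      have h3 : (0 : ℝ) ≤ (r : ℝ) ^ d := by positivity
      have h4 := mul_le_mul_of_nonneg_right h2 h3
      push_cast
      refine h4.trans (le_of_eq ?_)
      rw [mul_pow]
      ring
    refine (Finset.sum_le_sum h1).trans (le_of_eq ?_)
    rw [Finset.sum_const, Finset.card_powersetCard, Finset.card_univ, Fintype.card_fin,
      nsmul_eq_mul, hE]
    ring
  have hcc := upp_cc_nonneg d
  rw [Nat.cast_add]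
  have hEN : E ≤ mon n d := by linarith
  have h6 : (cc d + ε / 4) * E ≤ (cc d + ε / 4) * (mon n d : ℝ) :=
    mul_le_mul_of_nonneg_left hEN (by linarith)
  have h7 : (0 : ℝ) ≤ mon n d := Nat.cast_nonneg _
  have h8 : (t : ℝ) ≤ ε / 2 * (mon n d : ℝ) := by linarith
  have h9 : 0 ≤ ε * (mon n d : ℝ) := mul_nonneg hε.le h7
  calc (t : ℝ) + ((∑ B ∈ (univ : Finset (Fin m)).powersetCard d, s B * r ^ d : ℕ) : ℝ)
      ≤ ε / 2 * (mon n d : ℝ) + (cc d + ε / 4) * (mon n d : ℝ) := add_le_add h8 (hS.trans h6)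
    _ ≤ (cc d + ε) * (mon n d : ℝ) := by linarith

end Pool.SQA
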